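import Mathlib
import Pool.Agent.H111C.Final

/-!
# The minimum number of circles determined by `n` points

`m n` is the least number of circles determined by an admissible `n`-point set of the Euclidean
plane. We compute `m n` for `4 ≤ n ≤ 8` and for every `n ≥ 14`, and bound it for `9 ≤ n ≤ 13`.
-/

namespace Pool.Agent.Results.MP_1f1ca1_co.SmallAndLarge

noncomputable section

/-- the Euclidean plane -/
abbrev Plane := EuclideanSpace ℝ (Fin 2)

/-- the circles determined by `P`: the circles of positive radius which contain at least three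
points of `P` -/
def Circles (P : Set Plane) : Set (Set Plane) :=
  {C | (∃ (c : Plane) (r : ℝ), 0 < r ∧ C = Metric.sphere c r) ∧ 3 ≤ (P ∩ C).ncard}

/-- `P` is contained neither in a line nor in a circle -/
def Admissible (P : Set Plane) : Prop :=
  ¬ Collinear ℝ P ∧ ¬ ∃ (c : Plane) (r : ℝ), 0 < r ∧ P ⊆ Metric.sphere c r

/-- the numbers of circles determined by the admissible `n`-point sets -/
def counts (n : ℕ) : Set ℕ :=
  {k | ∃ P : Finset Plane, P.card = n ∧ Admissible (P : Set Plane) ∧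
    (Circles (P : Set Plane)).ncard = k}

/-- the least number of circles determined by an admissible `n`-point set -/
def m (n : ℕ) : ℕ := sInf (counts n)

open Pool.Agent.H111C.Final in
theorem result :
    (∀ n, 4 ≤ n → (counts n).Nonempty) ∧
    (∀ n, 14 ≤ n → m n = (n - 1).choose 2 + 1 - (n - 1) / 2) ∧
    m 4 = 3 ∧ m 5 = 5 ∧ m 6 = 8 ∧ m 7 = 11 ∧ m 8 = 17 ∧
    (20 ≤ m 9 ∧ m 9 ≤ 25) ∧ (27 ≤ m 10 ∧ m 10 ≤ 33) ∧ (36 ≤ m 11 ∧ m 11 ≤ 41) ∧
    (46 ≤ m 12 ∧ m 12 ≤ 51) ∧ (58 ≤ m 13 ∧ m 13 ≤ 61) := by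
  have lo : ∀ n k : ℕ, 4 ≤ n → n < 15 → (k : ℤ) ≤ Pool.Agent.H111C.Low.tgt n + 1 → k ≤ m n :=
    fun n k h1 h2 h3 => le_sInf_of h1 h2 h3
  have up : ∀ n, 4 ≤ n → m n ≤ (n - 2) ^ 2 / 2 + 1 := fun n hn =>
    sInf_le_of (Pool.Agent.H111C.UpperF.upper n hn)
  have up6 : m 6 ≤ 8 := sInf_le_of Pool.Agent.H111C.Upper.six
  have up7 : m 7 ≤ 11 := sInf_le_of Pool.Agent.H111C.Upper.seven
  have up8 : m 8 ≤ 17 := sInf_le_of Pool.Agent.H111C.Upper.eight
  refine ⟨fun n hn => counts_nonempty n hn, ?_, ?_, ?_, ?_, ?_, ?_, ?_, ?_, ?_, ?_, ?_⟩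
  · intro n hn
    rw [← formula n (by omega)]
    apply le_antisymm (up n (by omega))
    by_cases h15 : 15 ≤ n
    · exact le_sInf_large h15
    · have : n = 14 := by omega
      subst this
      exact lo 14 _ (by norm_num) (by norm_num) (by decide)
  · exact le_antisymm (up 4 (by norm_num)) (lo 4 _ (by norm_num) (by norm_num) (by decide))
  · exact le_antisymm (up 5 (by norm_num)) (lo 5 _ (by norm_num) (by norm_num) (by decide))
  · exact le_antisymm up6 (lo 6 _ (by norm_num) (by norm_num) (by decide))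
  · exact le_antisymm up7 (lo 7 _ (by norm_num) (by norm_num) (by decide))
  · exact le_antisymm up8 (lo 8 _ (by norm_num) (by norm_num) (by decide))
  · exact ⟨lo 9 _ (by norm_num) (by norm_num) (by decide), up 9 (by norm_num)⟩
  · exact ⟨lo 10 _ (by norm_num) (by norm_num) (by decide), up 10 (by norm_num)⟩
  · exact ⟨lo 11 _ (by norm_num) (by norm_num) (by decide), up 11 (by norm_num)⟩
  · exact ⟨lo 12 _ (by norm_num) (by norm_num) (by decide), up 12 (by norm_num)⟩
  · exact ⟨lo 13 _ (by norm_num) (by norm_num) (by decide), up 13 (by norm_num)⟩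

end

end Pool.Agent.Results.MP_1f1ca1_co.SmallAndLarge
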